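import Pool.Agent.Helper13.TW.StE

/-!
# Project TW, module BF: any two cells are homeomorphic (back and forth limit)
-/

set_option autoImplicit false

namespace Pool.Agent.Helper32.TW

open Set Topology Pool.Agent.Helper13.TR Pool.Agent.Helper13.TW

/-- closed graph theorem for maps to compact spaces -/
private lemma cont_of_graph {A B : Type} [TopologicalSpace A] [TopologicalSpace B] [CompactSpace B]
    (f : A → B) (h : IsClosed {z : A × B | z.2 = f z.1}) : Continuous f := by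
  rw [continuous_iff_isClosed]
  intro C hC
  have h1 : f ⁻¹' C = Prod.fst '' ({z : A × B | z.2 = f z.1} ∩ Prod.snd ⁻¹' C) := by
    ext a
    constructor
    · intro ha
      exact ⟨(a, f a), ⟨rfl, ha⟩, rfl⟩
    · rintro ⟨z, ⟨hz, hz'⟩, rfl⟩
      have hz2 : z.2 = f z.1 := hz
      have hz3 : z.2 ∈ C := hz'
      rw [mem_preimage, ← hz2]
      exact hz3
  rw [h1]
  exact isClosedMap_fst_of_compactSpace _ (h.inter (hC.preimage continuous_snd))

section bf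

variable {X X' : Type} [MetricSpace X] [MetricSpace X']

/-- the homeomorphism of the boundary curves -/
private lemma start (hARB : StARB) {J : Set X} {J' : Set X'} (hJ : IsSCC J) (hJ' : IsSCC J') :
    ∃ h : X → X', ContinuousOn h J ∧ InjOn h J ∧ h '' J = J' := by
  classical
  obtain ⟨p, q, D₁, D₂, h1, h2, h3, h4⟩ := hJ
  obtain ⟨p', q', D₁', D₂', h1', h2', h3', h4'⟩ := hJ'
  obtain ⟨f₁, c₁, i₁, m₁, p₁, q₁⟩ := hARB.2.2.2.2.1 X X' D₁ D₁' p q p' q' h1 h1'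
  obtain ⟨f₂, c₂, i₂, m₂, p₂, q₂⟩ := hARB.2.2.2.2.1 X X' D₂ D₂' p q p' q' h2 h2'
  obtain ⟨-, k₁, hp₁, hq₁, -⟩ := hARB.1 X D₁ p q h1
  obtain ⟨-, k₂, hp₂, hq₂, -⟩ := hARB.1 X D₂ p q h2
  let h : X → X' := fun x => if x ∈ D₁ then f₁ x else f₂ x
  have e₁ : ∀ x ∈ D₁, h x = f₁ x := fun x hx => if_pos hx
  have e₂ : ∀ x ∈ D₂, h x = f₂ x := by
    intro x hx
    by_cases hx1 : x ∈ D₁
    · rw [e₁ x hx1]
      have h5 : x ∈ ({p, q} : Set X) := h3 ▸ ⟨hx1, hx⟩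
      rcases h5 with h5 | h5
      · rw [h5, p₁, p₂]
      · rw [mem_singleton_iff] at h5
        rw [h5, q₁, q₂]
    · exact if_neg hx1
  have cr : ∀ x ∈ D₁, ∀ y ∈ D₂, h x = h y → x = y := by
    intro x hx y hy hxy
    rw [e₁ x hx, e₂ y hy] at hxy
    have h5 : f₁ x ∈ ({p', q'} : Set X') := by
      rw [← h3', ← m₁, ← m₂]
      exact ⟨⟨x, hx, rfl⟩, ⟨y, hy, hxy.symm⟩⟩
    rcases h5 with h5 | h5
    · have hx1 : x = p := i₁ hx hp₁ (by rw [h5, p₁])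
      have hy1 : y = p := i₂ hy hp₂ (by rw [← hxy, h5, p₂])
      rw [hx1, hy1]
    · rw [mem_singleton_iff] at h5
      have hx1 : x = q := i₁ hx hq₁ (by rw [h5, q₁])
      have hy1 : y = q := i₂ hy hq₂ (by rw [← hxy, h5, q₂])
      rw [hx1, hy1]
  refine ⟨h, ?_, ?_, ?_⟩
  · rw [← h4]
    exact (c₁.congr e₁).union_of_isClosed (c₂.congr e₂) k₁.isClosed k₂.isClosed
  · rw [← h4]
    rintro x (hx | hx) y (hy | hy) hxy
    · rw [e₁ x hx, e₁ y hy] at hxy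
      exact i₁ hx hy hxy
    · exact cr x hx y hy hxy
    · exact (cr y hy x hx hxy.symm).symm
    · rw [e₂ x hx, e₂ y hy] at hxy
      exact i₂ hx hy hxy
  · rw [← h4, ← h4', image_union, ← m₁, ← m₂, image_congr e₁, image_congr e₂]

/-- the sequence of joint subdivisions -/
private lemma seq (hLRB : StLRB) (hLRC : StLRC) {cell : Set X → Set X → Prop}
    {cell' : Set X' → Set X' → Prop} (hC : CSy cell) (hC' : CSy cell') (M : MP X X')
    (hM : Val cell cell' M) : ∃ L : ℕ → Set (MP X X'), (∀ n, LR cell cell' M (L n)) ∧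
      (∀ n, ∀ N ∈ L (n + 1), Metric.diam N.E < 1 / ((n : ℝ) + 1) ∧
        Metric.diam N.E' < 1 / ((n : ℝ) + 1)) ∧
      (∀ n, ∀ N ∈ L (n + 1), ∃ N₀ ∈ L n, N.E ⊆ N₀.E ∧ N.E' ⊆ N₀.E') := by
  classical
  obtain ⟨c1, c2⟩ := hLRC X X' cell cell' hC hC'
  have hF : ∀ (n : ℕ) (N : MP X X'), ∃ F : Set (MP X X'), Val cell cell' N → LR cell cell' N F ∧
      ∀ A ∈ F, Metric.diam A.E < 1 / ((n : ℝ) + 1) ∧ Metric.diam A.E' < 1 / ((n : ℝ) + 1) := by
    intro n N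
    by_cases hN : Val cell cell' N
    · obtain ⟨F, h1, h2⟩ := hLRB X X' cell cell' hC hC' N hN (1 / ((n : ℝ) + 1)) (by positivity)
      exact ⟨F, fun _ => ⟨h1, h2⟩⟩
    · exact ⟨∅, fun h => absurd h hN⟩
  choose F hF using hF
  let L : ℕ → Set (MP X X') := fun n => Nat.rec {M} (fun n L => ⋃ N ∈ L, F n N) n
  have hL : ∀ n, LR cell cell' M (L n) := by
    intro n
    induction n with
    | zero => exact c2 M hM
    | succ n ih => exact c1 M (L n) (F n) hM ih fun N hN => (hF n N (ih.val N hN)).1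
  refine ⟨L, hL, ?_, ?_⟩
  · intro n N hN
    obtain ⟨N₀, hN₀, hN⟩ := mem_iUnion₂.1 hN
    exact (hF n N₀ ((hL n).val N₀ hN₀)).2 N hN
  · intro n N hN
    obtain ⟨N₀, hN₀, hN⟩ := mem_iUnion₂.1 hN
    have h1 := (hF n N₀ ((hL n).val N₀ hN₀)).1
    refine ⟨N₀, hN₀, ?_, ?_⟩
    · rw [← h1.un]
      exact subset_biUnion_of_mem (u := fun N : MP X X' => N.E) hN
    · rw [← h1.un']
      exact subset_biUnion_of_mem (u := fun N : MP X X' => N.E') hN

/-- points at distance less than `2 / (n + 1)` for all `n` are equal -/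
private lemma eq_small {Y : Type} [MetricSpace Y] {a b : Y}
    (h : ∀ n : ℕ, dist a b < 1 / ((n : ℝ) + 1) + 1 / ((n : ℝ) + 1)) : a = b := by
  by_contra hab
  have h0 : 0 < dist a b / 2 := half_pos (dist_pos.2 hab)
  obtain ⟨n, hn⟩ := exists_nat_one_div_lt h0
  have h1 := h n
  linarith

/-- decreasing compact sets in the product: points with a partner -/
private lemma partner {A B : Type} [MetricSpace A] [MetricSpace B] (R : ℕ → Set (A × B))
    (hRc : ∀ n, IsCompact (R n)) (hRd : ∀ n, R (n + 1) ⊆ R n) (x : A)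
    (hx : ∀ n, ∃ y, (x, y) ∈ R n) : ∃ y, ∀ n, (x, y) ∈ R n := by
  have hc : ∀ n, IsCompact (R n ∩ Prod.fst ⁻¹' {x}) := fun n =>
    (hRc n).inter_right (isClosed_singleton.preimage continuous_fst)
  obtain ⟨z, hz⟩ := IsCompact.nonempty_iInter_of_sequence_nonempty_isCompact_isClosed
    (fun n => R n ∩ Prod.fst ⁻¹' {x}) (fun n => inter_subset_inter_left _ (hRd n))
    (fun n => by
      obtain ⟨y, hy⟩ := hx n
      exact ⟨(x, y), hy, rfl⟩) (hc 0) (fun n => (hc n).isClosed)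
  refine ⟨z.2, fun n => ?_⟩
  obtain ⟨h1, h2⟩ := mem_iInter.1 hz n
  have h3 : z.1 = x := h2
  rw [← h3]
  exact h1

end bf

theorem hBF (hLRB : StLRB) (hLRC : StLRC) (hARB : StARB) : StBF := by
  classical
  intro X X' _ _ cell cell' hC hC' E J E' J' hE hE'
  obtain ⟨hcE, hJE, hSJ⟩ := hC.cpt E J hE
  obtain ⟨hcE', hJE', hSJ'⟩ := hC'.cpt E' J' hE'
  obtain ⟨h₀, hc₀, hi₀, hm₀⟩ := start hARB hSJ hSJ'
  obtain ⟨M, hME, hMJ, hME', hMJ', hMh⟩ : ∃ M : MP X X', M.E = E ∧ M.J = J ∧ M.E' = E' ∧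
      M.J' = J' ∧ M.h = h₀ := ⟨⟨E, J, E', J', h₀⟩, rfl, rfl, rfl, rfl, rfl⟩
  have hM : Val cell cell' M := by
    refine ⟨?_, ?_, ?_, ?_, ?_⟩
    · rw [hME, hMJ]; exact hE
    · rw [hME', hMJ']; exact hE'
    · rw [hMh, hMJ]; exact hc₀
    · rw [hMh, hMJ]; exact hi₀
    · rw [hMh, hMJ, hMJ']; exact hm₀
  obtain ⟨L, hL, hd, hs⟩ := seq hLRB hLRC hC hC' M hM
  have ne : ∀ {Y : Type} [MetricSpace Y] {K : Set Y}, IsSCC K → K.Nonempty := by
    intro Y _ K hK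
    obtain ⟨p, q, D₁, D₂, h1, -, -, h4⟩ := hK
    exact ⟨p, h4 ▸ Or.inl (hARB.1 Y D₁ p q h1).2.2.1⟩
  have hcp : ∀ n, ∀ N ∈ L n, IsCompact N.E ∧ N.J ⊆ N.E ∧ N.E.Nonempty := by
    intro n N hN
    obtain ⟨a, b, c⟩ := hC.cpt N.E N.J ((hL n).val N hN).1
    exact ⟨a, b, (ne c).mono b⟩
  have hcp' : ∀ n, ∀ N ∈ L n, IsCompact N.E' ∧ N.J' ⊆ N.E' ∧ N.E'.Nonempty := by
    intro n N hN
    obtain ⟨a, b, c⟩ := hC'.cpt N.E' N.J' ((hL n).val N hN).2.1
    exact ⟨a, b, (ne c).mono b⟩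
  have him : ∀ n, ∀ N ∈ L n, ∀ x ∈ N.J, N.h x ∈ N.E' := by
    intro n N hN x hx
    apply (hcp' n N hN).2.1
    rw [← ((hL n).val N hN).2.2.2.2]
    exact mem_image_of_mem _ hx
  let R : ℕ → Set (X × X') := fun n => ⋃ N ∈ L n, N.E ×ˢ N.E'
  have hRm : ∀ (n : ℕ) (x : X) (x' : X'), (x, x') ∈ R n ↔ ∃ N ∈ L n, x ∈ N.E ∧ x' ∈ N.E' := by
    intro n x x'
    constructor
    · intro h
      obtain ⟨N, hN, h1⟩ := mem_iUnion₂.1 h
      exact ⟨N, hN, h1.1, h1.2⟩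
    · rintro ⟨N, hN, h1, h2⟩
      exact mem_iUnion₂.2 ⟨N, hN, h1, h2⟩
  have hRc : ∀ n, IsCompact (R n) := fun n =>
    (hL n).fin.isCompact_biUnion fun N hN => (hcp n N hN).1.prod (hcp' n N hN).1
  have hRd : ∀ n, R (n + 1) ⊆ R n := by
    rintro n ⟨x, x'⟩ h
    obtain ⟨N, hN, h1, h2⟩ := (hRm (n + 1) x x').1 h
    obtain ⟨N₀, hN₀, h3, h4⟩ := hs n N hN
    exact (hRm n x x').2 ⟨N₀, hN₀, h3 h1, h4 h2⟩
  have hRE : ∀ (n : ℕ) (x : X) (x' : X'), (x, x') ∈ R n → x ∈ E ∧ x' ∈ E' := by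
    intro n x x' h
    obtain ⟨N, hN, h1, h2⟩ := (hRm n x x').1 h
    constructor
    · rw [← hME, ← (hL n).un]
      exact mem_iUnion₂.2 ⟨N, hN, h1⟩
    · rw [← hME', ← (hL n).un']
      exact mem_iUnion₂.2 ⟨N, hN, h2⟩
  have dm : ∀ n, ∀ N ∈ L (n + 1), ∀ a ∈ N.E, ∀ b ∈ N.E, dist a b < 1 / ((n : ℝ) + 1) := by
    intro n N hN a ha b hb
    exact (Metric.dist_le_diam_of_mem (hcp (n + 1) N hN).1.isBounded ha hb).trans_lt (hd n N hN).1
  have dm' : ∀ n, ∀ N ∈ L (n + 1), ∀ a ∈ N.E', ∀ b ∈ N.E', dist a b < 1 / ((n : ℝ) + 1) := by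
    intro n N hN a ha b hb
    exact (Metric.dist_le_diam_of_mem (hcp' (n + 1) N hN).1.isBounded ha hb).trans_lt (hd n N hN).2
  have pos : ∀ n : ℕ, 0 < 1 / ((n : ℝ) + 1) := fun n => by positivity
  -- uniqueness
  have uq : ∀ (x : X) (a b : X'), (∀ n, (x, a) ∈ R n) → (∀ n, (x, b) ∈ R n) → a = b := by
    intro x a b ha hb
    apply eq_small
    intro n
    obtain ⟨N₁, hN₁, h1, h2⟩ := (hRm (n + 1) x a).1 (ha (n + 1))
    obtain ⟨N₂, hN₂, h3, h4⟩ := (hRm (n + 1) x b).1 (hb (n + 1))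
    by_cases h : N₁ = N₂
    · rw [← h] at h4
      have h5 := dm' n N₁ hN₁ a h2 b h4
      have h6 := pos n
      linarith
    · have h5 := (hL (n + 1)).dis N₁ hN₁ N₂ hN₂ h ⟨h1, h3⟩
      have h6 := (hL (n + 1)).agr N₁ hN₁ N₂ hN₂ x h5
      have h7 := dm' n N₁ hN₁ a h2 _ (him (n + 1) N₁ hN₁ x h5.1)
      have h8 := dm' n N₂ hN₂ _ (him (n + 1) N₂ hN₂ x h5.2) b h4
      rw [← h6] at h8
      have h9 := dist_triangle a (N₁.h x) b
      linarith
  have uq' : ∀ (x' : X') (a b : X), (∀ n, (a, x') ∈ R n) → (∀ n, (b, x') ∈ R n) → a = b := by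
    intro x' a b ha hb
    apply eq_small
    intro n
    obtain ⟨N₁, hN₁, h1, h2⟩ := (hRm (n + 1) a x').1 (ha (n + 1))
    obtain ⟨N₂, hN₂, h3, h4⟩ := (hRm (n + 1) b x').1 (hb (n + 1))
    by_cases h : N₁ = N₂
    · rw [← h] at h3
      have h5 := dm n N₁ hN₁ a h1 b h3
      have h6 := pos n
      linarith
    · have h5 := (hL (n + 1)).dis' N₁ hN₁ N₂ hN₂ h ⟨h2, h4⟩
      obtain ⟨h5a, h5b⟩ := h5
      rw [← ((hL (n + 1)).val N₁ hN₁).2.2.2.2] at h5a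
      rw [← ((hL (n + 1)).val N₂ hN₂).2.2.2.2] at h5b
      obtain ⟨u, hu, hu'⟩ := h5a
      obtain ⟨v, hv, hv'⟩ := h5b
      have h6 := (hL (n + 1)).inj N₁ hN₁ N₂ hN₂ u hu v hv (hu'.trans hv'.symm)
      have h7 := dm n N₁ hN₁ a h1 u ((hcp (n + 1) N₁ hN₁).2.1 hu)
      have h8 := dm n N₂ hN₂ v ((hcp (n + 1) N₂ hN₂).2.1 hv) b h3
      rw [← h6] at h8
      have h9 := dist_triangle a u b
      linarith
  -- existence
  have ex : ∀ x : ↥E, ∃ x' : X', ∀ n, ((x : X), x') ∈ R n := by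
    intro x
    apply partner R hRc hRd
    intro n
    have h1 : (x : X) ∈ ⋃ N ∈ L n, N.E := by
      rw [(hL n).un, hME]
      exact x.2
    obtain ⟨N, hN, h2⟩ := mem_iUnion₂.1 h1
    obtain ⟨y, hy⟩ := (hcp' n N hN).2.2
    exact ⟨y, (hRm n x y).2 ⟨N, hN, h2, hy⟩⟩
  have ex' : ∀ x' : ↥E', ∃ x : X, ∀ n, (x, (x' : X')) ∈ R n := by
    intro x'
    have h0 := partner (fun n => Prod.swap '' R n) (fun n => (hRc n).image continuous_swap)
      (fun n => image_mono (hRd n)) (x' : X') (by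
        intro n
        have h1 : (x' : X') ∈ ⋃ N ∈ L n, N.E' := by
          rw [(hL n).un', hME']
          exact x'.2
        obtain ⟨N, hN, h2⟩ := mem_iUnion₂.1 h1
        obtain ⟨y, hy⟩ := (hcp n N hN).2.2
        exact ⟨y, (y, (x' : X')), (hRm n y x').2 ⟨N, hN, hy, h2⟩, rfl⟩)
    obtain ⟨y, hy⟩ := h0
    refine ⟨y, fun n => ?_⟩
    obtain ⟨⟨a, b⟩, hz, hz'⟩ := hy n
    rw [Prod.swap_prod_mk, Prod.mk.injEq] at hz'
    rw [← hz'.1, ← hz'.2]
    exact hz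
  choose f hf using ex
  choose g hg using ex'
  let F : ↥E → ↥E' := fun x => ⟨f x, (hRE 0 x (f x) (hf x 0)).2⟩
  let G : ↥E' → ↥E := fun x => ⟨g x, (hRE 0 (g x) x (hg x 0)).1⟩
  have : CompactSpace ↥E := isCompact_iff_compactSpace.1 hcE
  have : CompactSpace ↥E' := isCompact_iff_compactSpace.1 hcE'
  have hRcl : ∀ n, IsClosed (R n) := fun n => (hRc n).isClosed
  have hFc : Continuous F := by
    apply cont_of_graph
    have h1 : {z : ↥E × ↥E' | z.2 = F z.1} =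
        ⋂ n, (fun z : ↥E × ↥E' => ((z.1 : X), (z.2 : X'))) ⁻¹' R n := by
      ext z
      rw [mem_iInter]
      constructor
      · intro h n
        have h2 : z.2 = F z.1 := h
        rw [mem_preimage, h2]
        exact hf z.1 n
      · intro h
        exact Subtype.ext (uq z.1 z.2 (f z.1) h (hf z.1))
    rw [h1]
    exact isClosed_iInter fun n => (hRcl n).preimage (by fun_prop)
  have hGc : Continuous G := by
    apply cont_of_graph
    have h1 : {z : ↥E' × ↥E | z.2 = G z.1} =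
        ⋂ n, (fun z : ↥E' × ↥E => ((z.2 : X), (z.1 : X'))) ⁻¹' R n := by
      ext z
      rw [mem_iInter]
      constructor
      · intro h n
        have h2 : z.2 = G z.1 := h
        rw [mem_preimage, h2]
        exact hg z.1 n
      · intro h
        exact Subtype.ext (uq' z.1 z.2 (g z.1) h (hg z.1))
    rw [h1]
    exact isClosed_iInter fun n => (hRcl n).preimage (by fun_prop)
  have hGF : ∀ x, G (F x) = x := fun x => Subtype.ext (uq' (F x) (g (F x)) x (hg (F x)) (hf x))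
  have hFG : ∀ x, F (G x) = x := fun x => Subtype.ext (uq (G x) (f (G x)) x (hf (G x)) (hg x))
  -- boundary
  have hb : ∀ x : ↥E, (x : X) ∈ J → (F x : X') = h₀ x := by
    intro x hx
    refine uq x (f x) (h₀ x) (hf x) fun n => ?_
    have h1 : (x : X) ∈ ⋃ N ∈ L n, N.E := by
      rw [(hL n).un, hME]
      exact x.2
    obtain ⟨N, hN, h2⟩ := mem_iUnion₂.1 h1
    have h3 : (x : X) ∈ N.J := (hL n).bdy N hN ⟨h2, hMJ ▸ hx⟩
    have h4 : N.h x = M.h x := (hL n).agb N hN x ⟨h3, hMJ ▸ hx⟩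
    rw [hMh] at h4
    rw [← h4]
    exact (hRm n x (N.h x)).2 ⟨N, hN, h2, him n N hN x h3⟩
  refine ⟨⟨⟨F, G, hGF, hFG⟩, hFc, hGc⟩, fun x => ?_⟩
  change (x : X) ∈ J ↔ (F x : X') ∈ J'
  constructor
  · intro hx
    rw [hb x hx, ← hm₀]
    exact mem_image_of_mem _ hx
  · intro hx
    rw [← hm₀] at hx
    obtain ⟨y, hy, hyx⟩ := hx
    have h1 := hb ⟨y, hJE hy⟩ hy
    have h2 : F ⟨y, hJE hy⟩ = F x := Subtype.ext (h1.trans hyx)
    have h3 : (⟨y, hJE hy⟩ : ↥E) = x := by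
      rw [← hGF ⟨y, hJE hy⟩, h2, hGF]
    rw [← h3]
    exact hy

end Pool.Agent.Helper32.TW
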