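import Pool.Agent.Helper13.TW.StD

/-!
# Project TW, module PRE: a crosscut through two points of a curve
-/

set_option autoImplicit false

namespace Pool.Agent.Helper32.TW

open Set Topology Pool.Agent.Helper13.TR Pool.Agent.Helper13.TW

section gen

variable {S : Type} [TopologicalSpace S]

/-- a simple closed curve contains two different points -/
private lemma two_pts [T2Space S] (hARB : StARB) {J : Set S} (hJ : IsSCC J) :
    ∃ a ∈ J, ∃ b ∈ J, a ≠ b := by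
  obtain ⟨p, q, D₁, D₂, h1, h2, h3, h4⟩ := hJ
  obtain ⟨-, -, hp, hq, hpq, -⟩ := hARB.1 S D₁ p q h1
  exact ⟨p, h4 ▸ Or.inl hp, q, h4 ▸ Or.inl hq, hpq⟩

/-- a simple closed curve contains a point different from a given one -/
private lemma other_pt [T2Space S] (hARB : StARB) {J : Set S} (hJ : IsSCC J) (z : S) :
    ∃ a ∈ J, a ≠ z := by
  obtain ⟨a, ha, b, hb, hab⟩ := two_pts hARB hJ
  by_cases h : a = z
  · exact ⟨b, hb, fun h' => hab (h.trans h'.symm)⟩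
  · exact ⟨a, ha, h⟩

/-- the general step -/
private lemma step [T2Space S] (hARB : StARB) (hSCL : StSCL) (hARX : StARX) {J K R : Set S}
    (hJ : IsSCC J) (hK : IsSCC K) (hR : IsPathConnected Rᶜ) (hd : ∀ x ∈ K, x ∉ R → x ∉ J)
    (hj : ∃ j ∈ K, j ∉ R) (hq : ∃ q ∈ J, q ∉ R) :
    ∃ (β : Set S) (p z : S), IsArc β p z ∧ p ∈ J ∧ z ∈ K ∧ β ⊆ Rᶜ ∧ β ∩ J = {p} ∧ β ∩ K = {z} := by
  obtain ⟨j, hjK, hjR⟩ := hj
  obtain ⟨q, hqJ, hqR⟩ := hq
  have hJc : IsClosed J := (hSCL S J hJ).2.2.2.2.1.isClosed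
  have hKc : IsClosed K := (hSCL S K hK).2.2.2.2.1.isClosed
  have hjJ : j ∉ J := hd j hjK hjR
  have hjq : j ≠ q := fun h => hjJ (h ▸ hqJ)
  obtain ⟨D, hDR, hD⟩ := hARX S Rᶜ j q (hR.joinedIn j hjR q hqR) hjq
  have hqD : q ∈ D := (hARB.1 S D j q hD).2.2.2.1
  obtain ⟨p, hpJ, D₁, hD₁, hA₁, hF₁⟩ := hARB.2.2.2.1 S D J j q hD hJc hjJ ⟨q, hqD, hqJ⟩
  have hA₁' : IsArc D₁ p j := (hARB.1 S D₁ j p hA₁).1
  have hpD₁ : p ∈ D₁ := (hARB.1 S D₁ j p hA₁).2.2.2.1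
  have hjD₁ : j ∈ D₁ := (hARB.1 S D₁ j p hA₁).2.2.1
  have hpK : p ∉ K := fun h => hd p h (hDR (hD₁ hpD₁)) hpJ
  obtain ⟨z, hzK, D₂, hD₂, hA₂, hF₂⟩ := hARB.2.2.2.1 S D₁ K p j hA₁' hKc hpK ⟨j, hjD₁, hjK⟩
  have hpD₂ : p ∈ D₂ := (hARB.1 S D₂ p z hA₂).2.2.1
  refine ⟨D₂, p, z, hA₂, hpJ, hzK, fun x hx => hDR (hD₁ (hD₂ hx)), ?_, hF₂⟩
  apply Subset.antisymm
  · intro x hx
    rw [← hF₁]
    exact ⟨hD₂ hx.1, hx.2⟩
  · intro x hx
    rw [mem_singleton_iff] at hx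
    rw [hx]
    exact ⟨hpD₂, hpJ⟩

/-- an arc which meets the curve only in its starting point and whose end point is inside -/
private lemma inside [T2Space S] (hARB : StARB) {J I γ : Set S} {p z : S}
    (hI : ∀ a b : S, JoinedIn Jᶜ a b → (a ∈ I ↔ b ∈ I)) (hγ : IsArc γ p z) (hJ : γ ∩ J = {p})
    (hz : z ∈ I) : ∀ x ∈ γ, x ≠ p → x ∈ I := by
  intro x hx hxp
  obtain ⟨-, -, hpγ, hzγ, hpz, -, hpc, -⟩ := hARB.1 S γ p z hγ
  have h1 : JoinedIn (γ \ {p}) z x := hpc.joinedIn z ⟨hzγ, fun h => hpz h.symm⟩ x ⟨hx, hxp⟩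
  have h2 : γ \ {p} ⊆ Jᶜ := by
    intro y hy hyJ
    apply hy.2
    rw [← hJ]
    exact ⟨hy.1, hyJ⟩
  exact (hI z x (h1.mono h2)).1 hz

end gen

theorem hPRE (hARN : StARN) (hARB : StARB) (hSCL : StSCL) (hARX : StARX) (hTWO : StTWO)
    (hCLS : StCLS) : StPRE := by
  intro S _ _ _ ω V hG J hE K hK hr
  have hJ : IsSCC J := hE.1
  obtain ⟨-, -, -, hI, -⟩ := hTWO S ω V hG J hE
  obtain ⟨-, -, hcl⟩ := hCLS S ω V hG J hE
  have hARN1 := (hARN S ω hG.ws hG.nc).1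
  have hIJ : ∀ x ∈ Ins ω J, x ∉ J := fun x hx => hx.1
  by_cases hKI : K ⊆ Ins ω J
  · -- first case
    have hKJ : ∀ x ∈ K, x ∉ J := fun x hx => hIJ x (hKI hx)
    obtain ⟨a₀, ha₀, -⟩ := other_pt hARB hJ (Classical.arbitrary S)
    obtain ⟨b₀, hb₀, -⟩ := other_pt hARB hK (Classical.arbitrary S)
    obtain ⟨α, p, z, hα, hpJ, hzK, -, hαJ, hαK⟩ := step hARB hSCL hARX (R := ∅) hJ hK
      (by rw [compl_empty]; exact isPathConnected_univ) (fun x hx _ => hKJ x hx)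
      ⟨b₀, hb₀, fun h => h⟩ ⟨a₀, ha₀, fun h => h⟩
    obtain ⟨-, -, hpα, hzα, hpz, -⟩ := hARB.1 S α p z hα
    obtain ⟨a, ha, hap⟩ := other_pt hARB hJ p
    obtain ⟨b, hb, hbz⟩ := other_pt hARB hK z
    obtain ⟨β, p', z', hβ, hpJ', hzK', hβα, hβJ, hβK⟩ := step hARB hSCL hARX (R := α) hJ hK
      (hARN1 α (Or.inl ⟨p, z, hα⟩)) (fun x hx _ => hKJ x hx)
      ⟨b, hb, fun h => hbz (by rw [← mem_singleton_iff, ← hαK]; exact ⟨h, hb⟩)⟩
      ⟨a, ha, fun h => hap (by rw [← mem_singleton_iff, ← hαJ]; exact ⟨h, ha⟩)⟩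
    obtain ⟨hβ', -, hpβ, hzβ, hpz', -⟩ := hARB.1 S β p' z' hβ
    have hzz : z ≠ z' := fun h => hβα hzβ (h ▸ hzα)
    obtain ⟨K₁, K₂, hK₁, -, -, hK₁₂⟩ := (hSCL S K hK).1 z hzK z' hzK' hzz
    have hK₁K : K₁ ⊆ K := fun x hx => hK₁₂ ▸ Or.inl hx
    obtain ⟨-, -, hzK₁, hzK₁', -⟩ := hARB.1 S K₁ z z' hK₁
    have h1 : IsArc (α ∪ K₁) p z' := by
      refine hARB.2.2.1 S α K₁ p z' z hα hK₁ ?_
      apply Subset.antisymm
      · rw [← hαK]
        exact fun x hx => ⟨hx.1, hK₁K hx.2⟩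
      · intro x hx
        rw [mem_singleton_iff] at hx
        rw [hx]
        exact ⟨hzα, hzK₁⟩
    have h2 : IsArc ((α ∪ K₁) ∪ β) p p' := by
      refine hARB.2.2.1 S (α ∪ K₁) β p p' z' h1 hβ' ?_
      apply Subset.antisymm
      · rintro x ⟨hx | hx, hx'⟩
        · exact absurd hx (hβα hx')
        · rw [← hβK]
          exact ⟨hx', hK₁K hx⟩
      · intro x hx
        rw [mem_singleton_iff] at hx
        rw [hx]
        exact ⟨Or.inr hzK₁', hzβ⟩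
    refine ⟨p, p', (α ∪ K₁) ∪ β, ⟨h2, ?_, ?_⟩, z, ⟨Or.inl (Or.inl hzα), hzK⟩, z',
      ⟨Or.inr hzβ, hzK'⟩, hzz⟩
    · apply Subset.antisymm
      · rintro x ⟨(hx | hx) | hx, hx'⟩
        · left
          rw [← mem_singleton_iff, ← hαJ]
          exact ⟨hx, hx'⟩
        · exact absurd hx' (hKJ x (hK₁K hx))
        · right
          rw [← hβJ]
          exact ⟨hx, hx'⟩
      · rintro x (hx | hx)
        · rw [hx]
          exact ⟨Or.inl (Or.inl hpα), hpJ⟩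
        · rw [mem_singleton_iff] at hx
          rw [hx]
          exact ⟨Or.inr hpβ, hpJ'⟩
    · rintro x ⟨(hx | hx) | hx, hx'⟩
      · exact inside hARB hI hα hαJ (hKI hzK) x hx fun h => hx' (Or.inl h)
      · exact hKI (hK₁K hx)
      · exact inside hARB hI hβ hβJ (hKI hzK') x hx fun h => hx' (Or.inr h)
  · -- second case
    obtain ⟨r, hrK, hrI⟩ := not_subset.1 hKI
    have hKr : ∀ x ∈ K, x ≠ r → x ∈ Ins ω J := by
      intro x hx hxr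
      by_contra h
      exact hxr (hr x ⟨hx, h⟩ r ⟨hrK, hrI⟩)
    obtain ⟨c, hcK, hcr⟩ := other_pt hARB hK r
    obtain ⟨A, B, hA, -, -, hAB⟩ := (hSCL S K hK).1 r hrK c hcK hcr.symm
    have hAK : A ⊆ K := fun x hx => hAB ▸ Or.inl hx
    obtain ⟨-, -, -, -, -, -, -, -, -, hrc, -⟩ := hARB.1 S A r c hA
    have hrJ : r ∈ J := by
      have h1 : r ∈ closure (Ins ω J) := by
        refine closure_mono ?_ hrc
        rintro x ⟨hx, hx'⟩
        exact hKr x (hAK hx) fun h => hx' (Or.inl h)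
      rw [hcl] at h1
      rcases h1 with h1 | h1
      · exact h1
      · exact absurd h1 hrI
    obtain ⟨a, ha, har⟩ := other_pt hARB hJ r
    obtain ⟨β, p', z', hβ, hpJ', hzK', hβr, hβJ, hβK⟩ := step hARB hSCL hARX (R := {r}) hJ hK
      (hARN1 {r} (Or.inr ⟨r, rfl⟩)) (fun x hx hx' => hIJ x (hKr x hx hx'))
      ⟨c, hcK, hcr⟩ ⟨a, ha, har⟩
    obtain ⟨hβ', -, hpβ, hzβ, hpz', -⟩ := hARB.1 S β p' z' hβ
    have hzr : z' ≠ r := fun h => hβr hzβ h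
    obtain ⟨K₁, K₂, hK₁, -, -, hK₁₂⟩ := (hSCL S K hK).1 r hrK z' hzK' hzr.symm
    have hK₁K : K₁ ⊆ K := fun x hx => hK₁₂ ▸ Or.inl hx
    obtain ⟨-, -, hrK₁, hzK₁', -⟩ := hARB.1 S K₁ r z' hK₁
    have h2 : IsArc (K₁ ∪ β) r p' := by
      refine hARB.2.2.1 S K₁ β r p' z' hK₁ hβ' ?_
      apply Subset.antisymm
      · rw [← hβK]
        exact fun x hx => ⟨hx.2, hK₁K hx.1⟩
      · intro x hx
        rw [mem_singleton_iff] at hx
        rw [hx]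
        exact ⟨hzK₁', hzβ⟩
    refine ⟨r, p', K₁ ∪ β, ⟨h2, ?_, ?_⟩, r, ⟨Or.inl hrK₁, hrK⟩, z', ⟨Or.inr hzβ, hzK'⟩, hzr.symm⟩
    · apply Subset.antisymm
      · rintro x ⟨hx | hx, hx'⟩
        · left
          by_contra h
          exact hIJ x (hKr x (hK₁K hx) h) hx'
        · right
          rw [← hβJ]
          exact ⟨hx, hx'⟩
      · rintro x (hx | hx)
        · rw [hx]
          exact ⟨Or.inl hrK₁, hrJ⟩
        · rw [mem_singleton_iff] at hx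
          rw [hx]
          exact ⟨Or.inr hpβ, hpJ'⟩
    · rintro x ⟨hx | hx, hx'⟩
      · exact hKr x (hK₁K hx) fun h => hx' (Or.inl h)
      · exact inside hARB hI hβ hβJ (hKr z' hzK' hzr) x hx fun h => hx' (Or.inr h)

end Pool.Agent.Helper32.TW
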