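import Pool.Agent.Helper54.PT.Defs

/-! MP_1d384c_nt, modules B12 and B13: unlinked sets. -/

set_option autoImplicit false

namespace Pool.Agent.Helper54.PT

open Finset Filter Topology

section

variable {ℓ : ℕ} [Fact ℓ.Prime]

section

variable {J : Type} [Fintype J] [DecidableEq J]

/-- the bilinear form -/
def b12_B (ℓ : ℕ) (J : Type) [Fintype J] :
    LinearMap.BilinForm (ZMod ℓ) ((J → ZMod ℓ) × (J → ZMod ℓ)) :=
  LinearMap.mk₂ (ZMod ℓ) (fun x y => ∑ j, (x.1 j * y.2 j + x.2 j * y.1 j))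
    (fun x x' y => by
      rw [← Finset.sum_add_distrib]
      refine Finset.sum_congr rfl fun j _ => ?_
      simp only [Prod.fst_add, Prod.snd_add, Pi.add_apply]
      ring)
    (fun c x y => by
      rw [smul_eq_mul, Finset.mul_sum]
      refine Finset.sum_congr rfl fun j _ => ?_
      simp only [Prod.smul_fst, Prod.smul_snd, Pi.smul_apply, smul_eq_mul]
      ring)
    (fun x y y' => by
      rw [← Finset.sum_add_distrib]
      refine Finset.sum_congr rfl fun j _ => ?_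
      simp only [Prod.fst_add, Prod.snd_add, Pi.add_apply]
      ring)
    (fun c x y => by
      rw [smul_eq_mul, Finset.mul_sum]
      refine Finset.sum_congr rfl fun j _ => ?_
      simp only [Prod.smul_fst, Prod.smul_snd, Pi.smul_apply, smul_eq_mul]
      ring)

theorem b12_B_apply (x y : (J → ZMod ℓ) × (J → ZMod ℓ)) :
    b12_B ℓ J x y = ∑ j, (x.1 j * y.2 j + x.2 j * y.1 j) := rfl

theorem b12_symm (x y : (J → ZMod ℓ) × (J → ZMod ℓ)) : b12_B ℓ J x y = b12_B ℓ J y x := by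
  rw [b12_B_apply, b12_B_apply]
  exact Finset.sum_congr rfl fun j _ => by ring

theorem b12_nondeg : (b12_B ℓ J).Nondegenerate := by
  have h : ∀ x : (J → ZMod ℓ) × (J → ZMod ℓ), (∀ y, b12_B ℓ J x y = 0) → x = 0 := by
    intro x hx
    apply Prod.ext
    · funext j
      have := hx (0, Pi.single j 1)
      rw [b12_B_apply] at this
      simpa [Pi.single_apply] using this
    · funext j
      have := hx (Pi.single j 1, 0)
      rw [b12_B_apply] at this
      simpa [Pi.single_apply] using this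
  refine ⟨fun x hx => h x hx, fun y hy => h y fun x => ?_⟩
  rw [b12_symm]
  exact hy x

/-- the quadratic form -/
def b12_Q (x : (J → ZMod ℓ) × (J → ZMod ℓ)) : ZMod ℓ := ∑ j, x.1 j * x.2 j

theorem b12_link (u u' : (J → ZMod ℓ) × (J → ZMod ℓ)) :
    PhiJ u u' + PhiJ u' u = - b12_Q (u' - u) := by
  unfold PhiJ b12_Q
  rw [← Finset.sum_add_distrib, ← Finset.sum_neg_distrib]
  refine Finset.sum_congr rfl fun j _ => ?_
  simp only [Prod.fst_sub, Prod.snd_sub, Pi.sub_apply]
  ring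

theorem b12_Q_sub (x y : (J → ZMod ℓ) × (J → ZMod ℓ)) :
    b12_Q (x - y) = b12_Q x + b12_Q y - b12_B ℓ J x y := by
  unfold b12_Q
  rw [b12_B_apply, ← Finset.sum_add_distrib, ← Finset.sum_sub_distrib]
  refine Finset.sum_congr rfl fun j _ => ?_
  simp only [Prod.fst_sub, Prod.snd_sub, Pi.sub_apply]
  ring

theorem b12_iso {𝒰 : Finset ((J → ZMod ℓ) × (J → ZMod ℓ))} (h : Unl PhiJ 𝒰)
    {u₀ : (J → ZMod ℓ) × (J → ZMod ℓ)} (h0 : u₀ ∈ 𝒰) {u u' : (J → ZMod ℓ) × (J → ZMod ℓ)}
    (hu : u ∈ 𝒰) (hu' : u' ∈ 𝒰) : b12_B ℓ J (u - u₀) (u' - u₀) = 0 := by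
  have hQ : ∀ a ∈ 𝒰, ∀ b ∈ 𝒰, b12_Q (a - b) = 0 := by
    intro a ha b hb
    have h1 := h b hb a ha
    rw [b12_link] at h1
    exact neg_eq_zero.1 h1
  have h2 := b12_Q_sub (u - u₀) (u' - u₀)
  rw [sub_sub_sub_cancel_right, hQ u hu u' hu', hQ u hu u₀ h0, hQ u' hu' u₀ h0] at h2
  rw [zero_add, zero_sub] at h2
  exact neg_eq_zero.1 h2.symm

/-- The span of the differences is totally isotropic, hence small. -/
theorem b12_finrank {𝒰 : Finset ((J → ZMod ℓ) × (J → ZMod ℓ))} (h : Unl PhiJ 𝒰)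
    {u₀ : (J → ZMod ℓ) × (J → ZMod ℓ)} (h0 : u₀ ∈ 𝒰) :
    Module.finrank (ZMod ℓ) (Submodule.span (ZMod ℓ)
      ((fun u => u - u₀) '' (𝒰 : Set ((J → ZMod ℓ) × (J → ZMod ℓ))))) ≤ Fintype.card J := by
  set W := Submodule.span (ZMod ℓ)
      ((fun u => u - u₀) '' (𝒰 : Set ((J → ZMod ℓ) × (J → ZMod ℓ)))) with hW
  have hle : W ≤ (b12_B ℓ J).orthogonal W := by
    intro x hx
    rw [LinearMap.BilinForm.mem_orthogonal_iff]
    intro y hy
    change b12_B ℓ J y x = 0
    induction hx using Submodule.span_induction with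
    | mem x hx =>
      obtain ⟨u, hu, rfl⟩ := hx
      induction hy using Submodule.span_induction with
      | mem y hy =>
        obtain ⟨u', hu', rfl⟩ := hy
        exact b12_iso h h0 hu' hu
      | zero => simp
      | add a b _ _ ha hb => rw [map_add, LinearMap.add_apply, ha, hb, add_zero]
      | smul c a _ ha => rw [map_smul, LinearMap.smul_apply, ha, smul_zero]
    | zero => simp
    | add a b _ _ ha hb => rw [map_add, ha, hb, add_zero]
    | smul c a _ ha => rw [map_smul, ha, smul_zero]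
  have h1 := Submodule.finrank_mono hle
  rw [LinearMap.BilinForm.finrank_orthogonal b12_nondeg] at h1
  have h2 : Module.finrank (ZMod ℓ) ((J → ZMod ℓ) × (J → ZMod ℓ)) = 2 * Fintype.card J := by
    rw [Module.finrank_prod, Module.finrank_fintype_fun_eq_card]
    ring
  have h3 := Submodule.finrank_le W
  rw [h2] at h1 h3
  omega

theorem b12_card (W : Submodule (ZMod ℓ) ((J → ZMod ℓ) × (J → ZMod ℓ))) :
    Nat.card W = ℓ ^ Module.finrank (ZMod ℓ) W := by
  have h := Module.natCard_eq_pow_finrank (K := ZMod ℓ) (V := W)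
  rwa [Nat.card_zmod] at h

/-- B12: unlinked sets: the size bound -/
theorem card_le_of_unl (𝒰 : Finset ((J → ZMod ℓ) × (J → ZMod ℓ))) (h : Unl PhiJ 𝒰) :
    𝒰.card ≤ ℓ ^ Fintype.card J := by
  rcases 𝒰.eq_empty_or_nonempty with rfl | ⟨u₀, h0⟩
  · simp
  set W := Submodule.span (ZMod ℓ)
      ((fun u => u - u₀) '' (𝒰 : Set ((J → ZMod ℓ) × (J → ZMod ℓ)))) with hW
  have h1 : 𝒰.card ≤ Nat.card W := by
    rw [← Nat.card_eq_fintype_card.trans (Fintype.card_coe 𝒰)]
    let f : 𝒰 → W := fun u => ⟨u.1 - u₀, Submodule.subset_span ⟨u.1, u.2, rfl⟩⟩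
    refine Nat.card_le_card_of_injective f fun a b hab => ?_
    apply Subtype.ext
    exact sub_left_injective (congrArg Subtype.val hab)
  rw [b12_card] at h1
  exact h1.trans (Nat.pow_le_pow_right (Nat.Prime.pos Fact.out) (b12_finrank h h0))

/-- B13: unlinked sets of maximal size are cosets of subspaces -/
theorem coset_of_unl (𝒰 : Finset ((J → ZMod ℓ) × (J → ZMod ℓ))) (h : Unl PhiJ 𝒰)
    (hc : 𝒰.card = ℓ ^ Fintype.card J) :
    ∃ (u₀ : (J → ZMod ℓ) × (J → ZMod ℓ))
      (W : Submodule (ZMod ℓ) ((J → ZMod ℓ) × (J → ZMod ℓ))),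
      Module.finrank (ZMod ℓ) W = Fintype.card J ∧ ∀ u, u ∈ 𝒰 ↔ u - u₀ ∈ W := by
  have hℓ : 1 < ℓ := Nat.Prime.one_lt Fact.out
  have hne : 𝒰.Nonempty := by
    rw [← Finset.card_pos, hc]
    exact pow_pos (by omega) _
  obtain ⟨u₀, h0⟩ := hne
  set W := Submodule.span (ZMod ℓ)
      ((fun u => u - u₀) '' (𝒰 : Set ((J → ZMod ℓ) × (J → ZMod ℓ)))) with hW
  let f : 𝒰 → W := fun u => ⟨u.1 - u₀, Submodule.subset_span ⟨u.1, u.2, rfl⟩⟩
  have hf : Function.Injective f := fun a b hab => by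
    apply Subtype.ext
    exact sub_left_injective (congrArg Subtype.val hab)
  have hcU : Nat.card 𝒰 = ℓ ^ Fintype.card J := by
    rw [Nat.card_eq_fintype_card, Fintype.card_coe, hc]
  have h1 : ℓ ^ Fintype.card J ≤ ℓ ^ Module.finrank (ZMod ℓ) W := by
    rw [← b12_card, ← hcU]
    exact Nat.card_le_card_of_injective f hf
  have h2 : Fintype.card J ≤ Module.finrank (ZMod ℓ) W := (Nat.pow_le_pow_iff_right hℓ).1 h1
  have h3 : Module.finrank (ZMod ℓ) W = Fintype.card J := le_antisymm (b12_finrank h h0) h2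
  refine ⟨u₀, W, h3, fun u => ⟨fun hu => Submodule.subset_span ⟨u, hu, rfl⟩, fun hu => ?_⟩⟩
  have hsurj : Function.Surjective f := by
    have : Finite W := inferInstance
    have h4 : Nat.card W ≤ Nat.card 𝒰 := by rw [b12_card, h3, hcU]
    exact (Function.Injective.bijective_of_nat_card_le hf h4).2
  obtain ⟨⟨u', hu'⟩, he⟩ := hsurj ⟨u - u₀, hu⟩
  have : u' = u := sub_left_injective (congrArg Subtype.val he)
  rwa [← this]

end

end

end Pool.Agent.Helper54.PT
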