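import Mathlib

/-!
# Stepanov's method: the auxiliary polynomial is not zero (S3)
-/

set_option autoImplicit false

namespace Pool.Agent.Helper54.PT

open Polynomial Finset

/-- a squarefree polynomial is not a square up to squares and constants -/
theorem sqf_aux {K : Type} [Field K] (f r s : K[X]) (u : K) (hf : Squarefree f)
    (hd : 1 ≤ f.natDegree) (hu : u ≠ 0) (h : r ^ 2 * f = s ^ 2 * C u) : r = 0 ∧ s = 0 := by
  have hf0 : f ≠ 0 := hf.ne_zero
  have hcu : (C u : K[X]) ≠ 0 := C_ne_zero.mpr hu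
  by_cases hr : r = 0
  · refine ⟨hr, ?_⟩
    rw [hr] at h
    have h2 : s ^ 2 * C u = 0 := by rw [← h]; ring
    rcases mul_eq_zero.mp h2 with h3 | h3
    · exact pow_eq_zero_iff two_ne_zero |>.mp h3
    · exact absurd h3 hcu
  · exfalso
    have hs : s ≠ 0 := by
      rintro rfl
      have h2 : r ^ 2 * f = 0 := by rw [h]; ring
      rcases mul_eq_zero.mp h2 with h3 | h3
      · exact hr (pow_eq_zero_iff two_ne_zero |>.mp h3)
      · exact hf0 h3
    have hnu : ¬ IsUnit f := by
      intro hfu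
      have := natDegree_eq_zero_of_isUnit hfu
      omega
    obtain ⟨π, hπ, hπf⟩ := WfDvdMonoid.exists_irreducible_factor hnu hf0
    have hp : Prime π := hπ.prime
    have hpu : ¬ IsUnit π := hπ.not_isUnit
    have fin : ∀ g : K[X], g ≠ 0 → FiniteMultiplicity π g :=
      fun g hg => FiniteMultiplicity.of_not_isUnit hpu hg
    have e1 : multiplicity π (r ^ 2 * f) = 2 * multiplicity π r + multiplicity π f := by
      rw [multiplicity_mul hp (fin _ (mul_ne_zero (pow_ne_zero _ hr) hf0)),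
        (fin _ hr).multiplicity_pow hp]
    have e2 : multiplicity π (s ^ 2 * C u) = 2 * multiplicity π s + multiplicity π (C u : K[X]) := by
      rw [multiplicity_mul hp (fin _ (mul_ne_zero (pow_ne_zero _ hs) hcu)),
        (fin _ hs).multiplicity_pow hp]
    have e3 : multiplicity π (C u : K[X]) = 0 := by
      rw [multiplicity_eq_zero]
      intro hdv
      exact hpu (isUnit_of_dvd_unit hdv (isUnit_C.mpr (isUnit_iff_ne_zero.mpr hu)))
    have e4 : multiplicity π f = 1 := by
      have h1 : 1 ≤ multiplicity π f := by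
        rw [← (fin f hf0).pow_dvd_iff_le_multiplicity, pow_one]
        exact hπf
      have h2 : ¬ 2 ≤ multiplicity π f := by
        rw [← (fin f hf0).pow_dvd_iff_le_multiplicity]
        intro hdv
        rw [sq] at hdv
        exact hpu (hf π hdv)
      omega
    rw [h, e2, e3, e4] at e1
    omega

/-- S3: the auxiliary polynomial is not zero -/
theorem aux_ne_zero {K : Type} [Field K] [Fintype K] (c : ℕ) (hc : Fintype.card K = 2 * c + 1)
    (f : K[X]) (hf : Squarefree f) (hd : 1 ≤ f.natDegree) (h0 : f.eval 0 ≠ 0) (A : ℕ)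
    (hA : 2 * A + f.natDegree ≤ Fintype.card K) (J : ℕ) (r s : Fin J → K[X])
    (hr : ∀ j, r j ∈ degreeLT K A) (hs : ∀ j, s j ∈ degreeLT K A) (hne : ∃ j, r j ≠ 0 ∨ s j ≠ 0) :
    ∑ j : Fin J, (r j + s j * f ^ c) * X ^ ((j : ℕ) * Fintype.card K) ≠ 0 := by
  intro hsum
  obtain ⟨Q, hQ⟩ : ∃ Q, Q = Fintype.card K := ⟨_, rfl⟩
  obtain ⟨k, hk, hmin⟩ := (wellFounded_lt (α := Fin J)).has_min {j | r j ≠ 0 ∨ s j ≠ 0} hne
  have hk' : r k ≠ 0 ∨ s k ≠ 0 := hk
  have hzero : ∀ j, j < k → r j = 0 ∧ s j = 0 := by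
    intro j hj
    have := hmin j
    by_contra hcon
    apply this _ hj
    show r j ≠ 0 ∨ s j ≠ 0
    tauto
  have hshift : ∀ g : Fin J → K[X], (∀ j, j < k → g j = 0) →
      ∑ j : Fin J, g j * X ^ ((j : ℕ) * Q) =
        X ^ ((k : ℕ) * Q) * ∑ j : Fin J, g j * X ^ (((j : ℕ) - k) * Q) ∧
      X ^ Q ∣ (∑ j : Fin J, g j * X ^ (((j : ℕ) - k) * Q)) - g k := by
    intro g hg
    constructor
    · rw [mul_sum]
      apply sum_congr rfl
      intro j _
      rcases lt_or_ge j k with h | h
      · rw [hg j h]; simp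
      · have h2 : (j : ℕ) = k + ((j : ℕ) - k) := by
          have : (k : ℕ) ≤ j := h
          omega
        have h3 : (j : ℕ) * Q = (k : ℕ) * Q + ((j : ℕ) - k) * Q := by
          rw [← Nat.add_mul, ← h2]
        rw [h3, pow_add]
        ring
    · rw [← add_sum_erase univ _ (mem_univ k)]
      have : g k * X ^ (((k : ℕ) - k) * Q) = g k := by simp
      rw [this, add_sub_cancel_left]
      apply dvd_sum
      intro j hj
      rcases lt_or_ge j k with h | h
      · rw [hg j h]; simp
      · have h2 : (k : ℕ) < j := by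
          have h3 : (k : ℕ) ≤ j := h
          have h4 : (j : ℕ) ≠ k := fun h5 => (ne_of_mem_erase hj) (Fin.ext h5)
          omega
        apply Dvd.dvd.mul_left
        apply pow_dvd_pow
        have : 1 ≤ (j : ℕ) - k := by omega
        nlinarith
  obtain ⟨r1, a, ha⟩ := hshift r (fun j hj => (hzero j hj).1)
  obtain ⟨s1, b, hb⟩ := hshift s (fun j hj => (hzero j hj).2)
  obtain ⟨H0, hH0⟩ : ∃ H0, H0 = ∑ j : Fin J, r j * X ^ (((j : ℕ) - k) * Q) := ⟨_, rfl⟩
  obtain ⟨H1, hH1⟩ : ∃ H1, H1 = ∑ j : Fin J, s j * X ^ (((j : ℕ) - k) * Q) := ⟨_, rfl⟩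
  rw [← hH0] at r1 ha
  rw [← hH1] at s1 hb
  have hrel : H0 + H1 * f ^ c = 0 := by
    have h1 : X ^ ((k : ℕ) * Q) * (H0 + H1 * f ^ c) = 0 := by
      rw [← hsum, mul_add, ← r1, ← mul_assoc, ← s1, sum_mul, ← sum_add_distrib, ← hQ]
      apply sum_congr rfl
      intro j _
      ring
    rcases mul_eq_zero.mp h1 with h2 | h2
    · exact absurd h2 (pow_ne_zero _ X_ne_zero)
    · exact h2
  have hexp : ∃ e : K[X], f ^ Q = C (f.eval 0) + X ^ Q * e := by
    refine ⟨expand K Q (divX f), ?_⟩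
    rw [hQ, ← FiniteField.expand_card f]
    conv_lhs => rw [← divX_mul_X_add f]
    rw [map_add, map_mul, expand_X, expand_C, coeff_zero_eq_eval_zero]
    ring
  obtain ⟨e, he⟩ := hexp
  have hsq : H0 ^ 2 * f = H1 ^ 2 * f ^ Q := by
    have h1 : H0 = -(H1 * f ^ c) := by linear_combination hrel
    rw [h1, hQ, hc]
    ring
  have hH0' : H0 = r k + X ^ Q * a := by linear_combination ha
  have hH1' : H1 = s k + X ^ Q * b := by linear_combination hb
  have hdvd : X ^ Q ∣ (r k) ^ 2 * f - (s k) ^ 2 * C (f.eval 0) := by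
    rw [hH0', hH1', he] at hsq
    refine ⟨-((2 * r k * a + X ^ Q * a ^ 2) * f - (2 * s k * b + X ^ Q * b ^ 2) *
      (C (f.eval 0) + X ^ Q * e) - (s k) ^ 2 * e), ?_⟩
    linear_combination hsq
  have hdeg : ∀ g : K[X], g ∈ degreeLT K A → g.natDegree ≤ A - 1 := by
    intro g hg
    by_cases hg0 : g = 0
    · rw [hg0]; simp
    · rw [mem_degreeLT] at hg
      have := (natDegree_lt_iff_degree_lt hg0).mpr hg
      omega
  have hApos : 1 ≤ A := by
    by_contra hcon
    have hA0 : A = 0 := by omega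
    have hz : ∀ g : K[X], g ∈ degreeLT K A → g = 0 := by
      intro g hg
      rw [mem_degreeLT, hA0] at hg
      by_contra hg0
      have := (natDegree_lt_iff_degree_lt hg0).mpr hg
      omega
    rcases hk' with h | h
    · exact h (hz _ (hr k))
    · exact h (hz _ (hs k))
  have hzero' : (r k) ^ 2 * f - (s k) ^ 2 * C (f.eval 0) = 0 := by
    apply eq_zero_of_dvd_of_natDegree_lt hdvd
    rw [natDegree_X_pow]
    have b1 := hdeg _ (hr k)
    have b2 := hdeg _ (hs k)
    have c1 : ((r k) ^ 2 * f).natDegree ≤ 2 * (A - 1) + f.natDegree := by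
      refine natDegree_mul_le.trans ?_
      have := natDegree_pow_le (p := r k) (n := 2)
      have : ((r k) ^ 2).natDegree ≤ 2 * (A - 1) := this.trans (by gcongr)
      omega
    have c2 : ((s k) ^ 2 * C (f.eval 0)).natDegree ≤ 2 * (A - 1) := by
      refine (natDegree_mul_C_le _ _).trans ?_
      exact (natDegree_pow_le (p := s k) (n := 2)).trans (by gcongr)
    have c3 := natDegree_sub_le ((r k) ^ 2 * f) ((s k) ^ 2 * C (f.eval 0))
    have c4 : max ((r k) ^ 2 * f).natDegree ((s k) ^ 2 * C (f.eval 0)).natDegree ≤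
        2 * (A - 1) + f.natDegree := max_le c1 (by omega)
    omega
  obtain ⟨g1, g2⟩ := sqf_aux f (r k) (s k) (f.eval 0) hf hd h0 (sub_eq_zero.mp hzero')
  rcases hk' with h | h
  · exact h g1
  · exact h g2

end Pool.Agent.Helper54.PT
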