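import Pool.Agent.Helper83.TW.A9

/-!
# S8a: bound for the elements of a multiset from a bound for the power sums, with a constant
-/

set_option autoImplicit false

namespace Pool.Agent.Helper54.PT

open Polynomial Finset Filter Topology

/-- S8a: bound for the elements from a bound for the power sums, with a constant (uses A9) -/
theorem abs_le_of_power_sums' (s : Multiset ℂ) (C r : ℝ) (hC : 1 ≤ C) (hr : 0 < r)
    (h : ∀ k : ℕ, 1 ≤ k → ‖(s.map fun α => α ^ k).sum‖ ≤ C * r ^ k) : ∀ α ∈ s, ‖α‖ ≤ r := by
  intro α hα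
  have key : ∀ M : ℕ, 1 ≤ M → ‖α‖ ^ M ≤ C * r ^ M := by
    intro M hM
    have h1 := abs_le_of_power_sums (s.map fun α => α ^ M) (C * r ^ M) (by positivity) (by
      intro k hk
      rw [Multiset.map_map]
      have e1 : ((fun α : ℂ => α ^ k) ∘ fun α : ℂ => α ^ M) = fun α : ℂ => α ^ (M * k) := by
        funext α
        simp [pow_mul]
      rw [e1]
      refine (h (M * k) (Nat.mul_pos hM hk)).trans ?_
      rw [mul_pow, ← pow_mul]
      have : C ≤ C ^ k := by
        calc C = C ^ 1 := (pow_one C).symm
          _ ≤ C ^ k := pow_le_pow_right₀ hC hk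
      gcongr) (α ^ M) (Multiset.mem_map_of_mem _ hα)
    rwa [norm_pow] at h1
  by_contra hcon
  push Not at hcon
  have hx : 1 < ‖α‖ / r := by rwa [one_lt_div hr]
  obtain ⟨M, hM⟩ := pow_unbounded_of_one_lt C hx
  have hM1 : 1 ≤ M := by
    rcases Nat.eq_zero_or_pos M with h0 | h0
    · rw [h0, pow_zero] at hM
      linarith
    · exact h0
  have h2 := key M hM1
  rw [div_pow, lt_div_iff₀ (by positivity)] at hM
  linarith

end Pool.Agent.Helper54.PT
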